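import Mathlib.Data.Fintype.Basic
import Mathlib.Logic.Equiv.Basic
import Mathlib.Logic.Function.Basic
import Mathlib.Order.Basic
import Mathlib.Tactic.Ring
import Mathlib.Tactic.Linarith

/-! Decision tree depth of Boolean functions and composition. -/

namespace Pool.Agent.Helper22.Evas

variable {ι κ τ : Type} [DecidableEq ι] [DecidableEq κ] [DecidableEq τ]

/-- `Depth m g`: some decision tree of depth at most `m` computes `g`. -/
inductive Depth {ι : Type} [DecidableEq ι] : ℕ → ((ι → Bool) → Bool) → Prop
  | const (m : ℕ) (g : (ι → Bool) → Bool) (h : ∀ x y, g x = g y) : Depth m g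
  | node (m : ℕ) (g : (ι → Bool) → Bool) (i : ι)
      (h0 : Depth m (fun x => g (Function.update x i false)))
      (h1 : Depth m (fun x => g (Function.update x i true))) : Depth (m + 1) g

theorem Depth.mono {m m' : ℕ} {g : (ι → Bool) → Bool} (h : Depth m g) (hm : m ≤ m') :
    Depth m' g := by
  induction h generalizing m' with
  | const m g h => exact Depth.const _ _ h
  | node m g i _ _ ih0 ih1 =>
    obtain ⟨k, rfl⟩ : ∃ k, m' = k + 1 := ⟨m' - 1, by omega⟩
    exact Depth.node _ _ i (ih0 (by omega)) (ih1 (by omega))

theorem Depth.restrict {m : ℕ} {g : (ι → Bool) → Bool} (h : Depth m g) (j : ι) (v : Bool) :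
    Depth m (fun x => g (Function.update x j v)) := by
  induction h with
  | const m g h => exact Depth.const _ _ fun x y => h _ _
  | node m g i h0 h1 ih0 ih1 =>
    by_cases hij : i = j
    · subst hij
      have : Depth m (fun x => g (Function.update x i v)) := by
        cases v
        · exact h0
        · exact h1
      exact this.mono (by omega)
    · refine Depth.node _ _ i ?_ ?_
      · have e : (fun x : ι → Bool => g (Function.update (Function.update x i false) j v)) =
            fun x => g (Function.update (Function.update x j v) i false) := by
          funext x; rw [Function.update_comm hij]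
        rw [e]; exact ih0
      · have e : (fun x : ι → Bool => g (Function.update (Function.update x i true) j v)) =
            fun x => g (Function.update (Function.update x j v) i true) := by
          funext x; rw [Function.update_comm hij]
        rw [e]; exact ih1

/-- Case distinction on the value of an inner function. -/
theorem Depth.cases {b : ℕ} {g : (κ → Bool) → Bool} (hg : Depth b g) (e : κ → τ)
    (he : Function.Injective e) {c : ℕ} {H0 H1 : (τ → Bool) → Bool}
    (h0 : Depth c H0) (h1 : Depth c H1) :
    Depth (b + c) (fun z => if g (fun k => z (e k)) = true then H1 z else H0 z) := by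
  induction hg generalizing H0 H1 with
  | const b g h =>
    by_cases hv : g (fun _ => false) = true
    · have : (fun z : τ → Bool => if g (fun k => z (e k)) = true then H1 z else H0 z) = H1 := by
        funext z; rw [h (fun k => z (e k)) (fun _ => false), if_pos hv]
      rw [this]; exact h1.mono (by omega)
    · have : (fun z : τ → Bool => if g (fun k => z (e k)) = true then H1 z else H0 z) = H0 := by
        funext z; rw [h (fun k => z (e k)) (fun _ => false), if_neg hv]
      rw [this]; exact h0.mono (by omega)
  | node b g i _ _ ih0 ih1 =>
    have key : ∀ (z : τ → Bool) (v : Bool),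
        (fun k => (Function.update z (e i) v) (e k)) = Function.update (fun k => z (e k)) i v := by
      intro z v
      funext k
      by_cases hk : k = i
      · subst hk; simp
      · rw [Function.update_of_ne hk, Function.update_of_ne (fun h => hk (he h))]
    have e1 : b + 1 + c = (b + c) + 1 := by omega
    rw [e1]
    refine Depth.node _ _ (e i) ?_ ?_
    · have := ih0 (h0.restrict (e i) false) (h1.restrict (e i) false)
      simpa only [key] using this
    · have := ih1 (h0.restrict (e i) true) (h1.restrict (e i) true)
      simpa only [key] using this

/-- Composition of Boolean functions on a product of variable sets. -/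
def comp (f : (ι → Bool) → Bool) (g : (κ → Bool) → Bool) : (ι × κ → Bool) → Bool :=
  fun z => f fun i => g fun k => z (i, k)

theorem Depth.comp {a b : ℕ} {f : (ι → Bool) → Bool} {g : (κ → Bool) → Bool}
    (hf : Depth a f) (hg : Depth b g) : Depth (a * b) (comp f g) := by
  induction hf with
  | const a f h => exact Depth.const _ _ fun x y => h _ _
  | node a f i _ _ ih0 ih1 =>
    have e1 : (a + 1) * b = b + a * b := by ring
    rw [e1]
    have := hg.cases (fun k => (i, k)) (fun _ _ h => (Prod.mk.inj h).2) ih0 ih1
    have e2 : Pool.Agent.Helper22.Evas.comp f g = fun z : ι × κ → Bool =>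
        if g (fun k => z (i, k)) = true
          then Pool.Agent.Helper22.Evas.comp (fun x => f (Function.update x i true)) g z
          else Pool.Agent.Helper22.Evas.comp (fun x => f (Function.update x i false)) g z := by
      funext z
      unfold Pool.Agent.Helper22.Evas.comp
      by_cases hv : g (fun k => z (i, k)) = true
      · rw [if_pos hv]
        congr 1
        funext j
        by_cases hj : j = i
        · subst hj; simp [hv]
        · rw [Function.update_of_ne hj]
      · rw [if_neg hv]
        congr 1
        funext j
        by_cases hj : j = i
        · subst hj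
          rw [Function.update_self]
          simpa using hv
        · rw [Function.update_of_ne hj]
    rw [e2]
    exact this

/-- Transport of a Boolean function along a bijection of the variables. -/
def transport (e : ι ≃ κ) (f : (ι → Bool) → Bool) : (κ → Bool) → Bool := fun x => f fun i => x (e i)

theorem Depth.transport {a : ℕ} {f : (ι → Bool) → Bool} (hf : Depth a f) (e : ι ≃ κ) :
    Depth a (transport e f) := by
  have key : ∀ (x : κ → Bool) (i : ι) (v : Bool),
      (fun k => (Function.update x (e i) v) (e k)) = Function.update (fun k => x (e k)) i v := by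
    intro z i v
    funext k
    by_cases hk : k = i
    · subst hk; simp
    · rw [Function.update_of_ne hk, Function.update_of_ne (fun h => hk (e.injective h))]
  induction hf with
  | const a f h => exact Depth.const _ _ fun x y => h _ _
  | node a f i _ _ ih0 ih1 =>
    refine Depth.node _ _ (e i) ?_ ?_
    · simp only [Pool.Agent.Helper22.Evas.transport, key]; exact ih0
    · simp only [Pool.Agent.Helper22.Evas.transport, key]; exact ih1

/-- A monotone, non-constant, transitive Boolean function with a decision tree of depth `k`. -/
structure Good (f : (ι → Bool) → Bool) (k : ℕ) : Prop where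
  mono : Monotone f
  bot : f (fun _ => false) = false
  top : f (fun _ => true) = true
  trans : ∀ i j : ι, ∃ σ : Equiv.Perm ι, σ i = j ∧ ∀ x : ι → Bool, f (x ∘ σ) = f x
  depth : Depth k f

theorem Good.comp {a b : ℕ} {f : (ι → Bool) → Bool} {g : (κ → Bool) → Bool}
    (hf : Good f a) (hg : Good g b) : Good (comp f g) (a * b) := by
  refine ⟨?_, ?_, ?_, ?_, hf.depth.comp hg.depth⟩
  · intro x y hxy
    exact hf.mono fun i => hg.mono fun k => hxy (i, k)
  · change f (fun _ => g fun _ => false) = false
    rw [hg.bot]; exact hf.bot
  · change f (fun _ => g fun _ => true) = true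
    rw [hg.top]; exact hf.top
  · rintro ⟨i, k⟩ ⟨i', k'⟩
    obtain ⟨σ, hσ, hσ'⟩ := hf.trans i i'
    obtain ⟨ρ, hρ, hρ'⟩ := hg.trans k k'
    refine ⟨Equiv.prodCongr σ ρ, by simp [hσ, hρ], fun x => ?_⟩
    change f (fun i => g fun k => x (σ i, ρ k)) = f fun i => g fun k => x (i, k)
    have h1 : (fun i => g fun k => x (σ i, ρ k)) = (fun i => g fun k => x (i, k)) ∘ σ := by
      funext i
      exact hρ' (fun k => x (σ i, k))
    rw [h1, hσ']

theorem Good.transport {a : ℕ} {f : (ι → Bool) → Bool} (hf : Good f a) (e : ι ≃ κ) :
    Good (transport e f) a := by
  refine ⟨?_, hf.bot, hf.top, ?_, hf.depth.transport e⟩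
  · intro x y hxy
    exact hf.mono fun i => hxy (e i)
  · intro i j
    obtain ⟨σ, hσ, hσ'⟩ := hf.trans (e.symm i) (e.symm j)
    refine ⟨(e.symm.trans σ).trans e, by simp [hσ], fun x => ?_⟩
    change f (fun i => x (e (σ (e.symm (e i))))) = f fun i => x (e i)
    have : (fun i => x (e (σ (e.symm (e i))))) = (fun i => x (e i)) ∘ σ := by
      funext i; simp
    rw [this, hσ']

end Pool.Agent.Helper22.Evas
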