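import Mathlib.Analysis.SpecialFunctions.Pow.Real
import Mathlib.Logic.Equiv.Fin.Basic
import Pool.Agent.Helper22.Evas.Depth

/-! One non-evasive monotone transitive function refutes weak evasiveness. -/

namespace Pool.Agent.Helper22.Evas

theorem exists_pow {m k : ℕ} {f : (Fin m → Bool) → Bool} (hf : Good f k) (t : ℕ) :
    ∃ F : (Fin (m ^ t) → Bool) → Bool, Good F (k ^ t) := by
  induction t with
  | zero =>
    refine ⟨fun x => x ⟨0, by simp⟩, fun x y h => h _, rfl, rfl, ?_, ?_⟩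
    · intro i j
      refine ⟨1, ?_, fun x => rfl⟩
      apply Fin.ext
      have h1 := i.2; have h2 := j.2
      simp only [pow_zero] at h1 h2
      simp only [Equiv.Perm.coe_one, id_eq]
      omega
    · have h : Depth (0 + 1) (fun x : Fin (m ^ 0) → Bool => x ⟨0, by simp⟩) := by
        refine Depth.node 0 _ ⟨0, by simp⟩ ?_ ?_
        · exact Depth.const _ _ fun x y => by rw [Function.update_self, Function.update_self]
        · exact Depth.const _ _ fun x y => by rw [Function.update_self, Function.update_self]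
      exact h
  | succ t ih =>
    obtain ⟨F, hF⟩ := ih
    have e : Fin (m ^ t) × Fin m ≃ Fin (m ^ (t + 1)) :=
      finProdFinEquiv.trans (finCongr (by rw [pow_succ]))
    refine ⟨transport e (comp F f), ?_⟩
    have := (hF.comp hf).transport e
    rw [← pow_succ] at this
    exact this

theorem depth_impredicative {n k : ℕ} {f : (Fin n → Bool) → Bool} (h : Depth k f)
    (P : ℕ → ((Fin n → Bool) → Bool) → Prop)
    (hc : ∀ (m : ℕ) (g : (Fin n → Bool) → Bool), (∀ x y, g x = g y) → P m g)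
    (hn : ∀ (m : ℕ) (g : (Fin n → Bool) → Bool) (i : Fin n),
      P m (fun x => g (Function.update x i false)) →
      P m (fun x => g (Function.update x i true)) → P (m + 1) g) : P k f := by
  induction h with
  | const m g h => exact hc m g h
  | node m g i _ _ ih0 ih1 => exact hn m g i ih0 ih1

/-- A single non-evasive example refutes the weak evasiveness conjecture (frozen form). -/
theorem refute {m : ℕ} (hm : 2 ≤ m) {f : (Fin m → Bool) → Bool} (hf : Good f (m - 1)) :
    ¬ (∀ ε : ℝ, 0 < ε → ∃ N : ℕ, ∀ n : ℕ, N ≤ n →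
    ∀ f : (Fin n → Bool) → Bool, Monotone f → (∃ x y, f x ≠ f y) →
      (∀ i j : Fin n, ∃ σ : Equiv.Perm (Fin n), σ i = j ∧
          ∀ x : Fin n → Bool, f (x ∘ σ) = f x) →
      ∀ k : ℕ,
        (∀ P : ℕ → ((Fin n → Bool) → Bool) → Prop,
          (∀ (m : ℕ) (g : (Fin n → Bool) → Bool), (∀ x y, g x = g y) → P m g) →
          (∀ (m : ℕ) (g : (Fin n → Bool) → Bool) (i : Fin n),
             P m (fun x => g (Function.update x i false)) →
             P m (fun x => g (Function.update x i true)) → P (m + 1) g) →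
          P k f) →
        (n : ℝ) ^ (1 - ε) ≤ (k : ℝ)) := by
  intro H
  have hm1 : (1 : ℝ) ≤ ((m - 1 : ℕ) : ℝ) := by
    have : 1 ≤ m - 1 := by omega
    exact_mod_cast this
  have hmm : ((m - 1 : ℕ) : ℝ) < m := by
    have : m - 1 < m := by omega
    exact_mod_cast this
  have hm0 : (0 : ℝ) < m := by linarith
  have hlt : Real.log ((m - 1 : ℕ) : ℝ) < Real.log m := Real.log_lt_log (by linarith) hmm
  have hl0 : 0 ≤ Real.log ((m - 1 : ℕ) : ℝ) := Real.log_nonneg hm1
  have hlm : 0 < Real.log m := by linarith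
  set ε : ℝ := (1 - Real.log ((m - 1 : ℕ) : ℝ) / Real.log m) / 2 with hε
  have hε0 : 0 < ε := by
    have : Real.log ((m - 1 : ℕ) : ℝ) / Real.log m < 1 := (div_lt_one hlm).mpr hlt
    rw [hε]; linarith
  obtain ⟨N, hN⟩ := H ε hε0
  obtain ⟨F, hF⟩ := exists_pow hf (N + 1)
  have hn : N ≤ m ^ (N + 1) := by
    have h1 : N + 1 < m ^ (N + 1) := Nat.lt_pow_self (by omega)
    omega
  have h := hN (m ^ (N + 1)) hn F hF.mono
    ⟨fun _ => false, fun _ => true, by rw [hF.bot, hF.top]; simp⟩ hF.trans ((m - 1) ^ (N + 1))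
    (fun P hc hs => depth_impredicative hF.depth P hc hs)
  have hbase : ((m - 1 : ℕ) : ℝ) < (m : ℝ) ^ (1 - ε) := by
    rw [Real.rpow_def_of_pos hm0]
    refine lt_of_eq_of_lt (Real.exp_log (show (0 : ℝ) < ((m - 1 : ℕ) : ℝ) by linarith)).symm ?_
    apply Real.exp_lt_exp.mpr
    rw [hε]
    have e1 : Real.log m * (1 - (1 - Real.log ((m - 1 : ℕ) : ℝ) / Real.log m) / 2) =
        (Real.log m + Real.log ((m - 1 : ℕ) : ℝ)) / 2 := by
      field_simp
      ring
    rw [e1]; linarith
  have hlt2 : (((m - 1 : ℕ) : ℝ)) ^ (N + 1) < ((m : ℝ) ^ (1 - ε)) ^ (N + 1) :=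
    pow_lt_pow_left₀ hbase (by linarith) (by omega)
  have e2 : ((m : ℝ) ^ (1 - ε)) ^ (N + 1) = (((m ^ (N + 1) : ℕ) : ℝ)) ^ (1 - ε) := by
    push_cast
    rw [← Real.rpow_natCast, ← Real.rpow_natCast, ← Real.rpow_mul hm0.le, ← Real.rpow_mul hm0.le,
      mul_comm]
  rw [e2] at hlt2
  have h3 : (((m - 1) ^ (N + 1) : ℕ) : ℝ) = (((m - 1 : ℕ) : ℝ)) ^ (N + 1) := by push_cast; rfl
  rw [h3] at h
  linarith

end Pool.Agent.Helper22.Evas
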