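import Mathlib.Data.Nat.Bitwise
import Mathlib.Data.List.Nodup
import Mathlib.Data.Finset.Card
import Pool.Agent.Helper22.Evas.Depth

/-! A kernel-checkable certificate for non-evasiveness of a complex given by a 0/1 matrix. -/

namespace Pool.Agent.Helper22.Evas

/-- Certificates. Rows are addressed by their current position. -/
inductive Cert : Type
  | leaf (j : ℕ) : Cert
  | dom (i j : ℕ) (rest : Cert) : Cert
  | col (y y' : ℕ) (rest : Cert) : Cert
  | del (i : ℕ) (link rest : Cert) : Cert
  | bat (codes : List ℕ) (rest : Cert) : Cert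

/-- Rows kept by a batch: code `0` keeps a row, code `j + 1` drops it (dominated by the `j`-th kept
row). Rows beyond the codes are kept. -/
def keepL {α : Type} : List α → List ℕ → List α
  | [], _ => []
  | r :: R, [] => r :: R
  | r :: R, k :: cs => match k with
    | 0 => r :: keepL R cs
    | _ + 1 => keepL R cs

/-- Check of the dominations of a batch. -/
def domOK (K : List ℕ) (c : ℕ) : List ℕ → List ℕ → Bool
  | [], _ => true
  | _ :: _, [] => true
  | r :: R, k :: cs => match k with
    | 0 => domOK K c R cs
    | j + 1 => (match K[j]? with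
      | none => false
      | some d => Nat.beq (Nat.land (Nat.land r c) d) (Nat.land r c)) && domOK K c R cs

/-- The certificate checker. -/
def chk : Cert → List ℕ → ℕ → Bool
  | .leaf j, R, c => match R[j]? with
    | none => false
    | some m => Nat.beq (Nat.land m c) c
  | .dom i j rest, R, c => match R[i]?, R[j]? with
    | some m, some m' => (Nat.beq (Nat.land (Nat.land m c) m') (Nat.land m c)) &&
        (!(Nat.beq i j)) && chk rest (R.eraseIdx i) c
    | _, _ => false
  | .col y y' rest, R, c =>
      Nat.testBit c y && Nat.testBit c y' && !(Nat.beq y y') &&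
        R.all (fun r => !(Nat.testBit r y) || Nat.testBit r y') &&
        chk rest R (Nat.xor c (Nat.shiftLeft 1 y))
  | .del i link rest, R, c => match R[i]? with
    | none => false
    | some m => chk link (R.eraseIdx i) (Nat.land m c) && chk rest (R.eraseIdx i) c
  | .bat codes rest, R, c =>
      domOK (keepL R codes) c R codes && chk rest (keepL R codes) c

variable {ι : Type} [DecidableEq ι]

open Classical in
/-- Indicator of the non-faces: `x` is a face iff some column of `c` lies in all rows chosen. -/
noncomputable def G (M : ι → ℕ) (L : List ι) (c : ℕ) (x : ι → Bool) : Bool :=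
  decide (∀ y, c.testBit y = true → ∃ i ∈ L, x i = true ∧ (M i).testBit y = false)

omit [DecidableEq ι] in
theorem G_eq_iff {M : ι → ℕ} {L L' : List ι} {c c' : ℕ} {x x' : ι → Bool} :
    G M L c x = G M L' c' x' ↔
      ((∀ y, c.testBit y = true → ∃ i ∈ L, x i = true ∧ (M i).testBit y = false) ↔
        (∀ y, c'.testBit y = true → ∃ i ∈ L', x' i = true ∧ (M i).testBit y = false)) := by
  unfold G
  rw [decide_eq_decide]

omit [DecidableEq ι] in
theorem G_eq_true {M : ι → ℕ} {L : List ι} {c : ℕ} {x : ι → Bool} :
    G M L c x = true ↔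
      (∀ y, c.testBit y = true → ∃ i ∈ L, x i = true ∧ (M i).testBit y = false) := by
  classical
  unfold G
  exact decide_eq_true_iff

theorem mem_eraseIdx {L : List ι} (hL : L.Nodup) {i : ℕ} (hi : i < L.length) (k : ι) :
    k ∈ L.eraseIdx i ↔ k ∈ L ∧ k ≠ L[i] := by
  rw [← hL.erase_getElem i hi, hL.mem_erase_iff]
  tauto

theorem G_false {M : ι → ℕ} {L : List ι} {c : ℕ} (hL : L.Nodup) {i : ℕ} (hi : i < L.length)
    (x : ι → Bool) : G M L c (Function.update x L[i] false) = G M (L.eraseIdx i) c x := by
  rw [G_eq_iff]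
  constructor
  · intro h y hy
    obtain ⟨k, hk, hx, hM⟩ := h y hy
    have hne : k ≠ L[i] := by
      rintro rfl; simp at hx
    rw [Function.update_of_ne hne] at hx
    exact ⟨k, (mem_eraseIdx hL hi k).mpr ⟨hk, hne⟩, hx, hM⟩
  · intro h y hy
    obtain ⟨k, hk, hx, hM⟩ := h y hy
    obtain ⟨hk1, hk2⟩ := (mem_eraseIdx hL hi k).mp hk
    exact ⟨k, hk1, by rw [Function.update_of_ne hk2]; exact hx, hM⟩

theorem G_true {M : ι → ℕ} {L : List ι} {c : ℕ} (hL : L.Nodup) {i : ℕ} (hi : i < L.length)
    (x : ι → Bool) :
    G M L c (Function.update x L[i] true) = G M (L.eraseIdx i) (M L[i] &&& c) x := by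
  rw [G_eq_iff]
  constructor
  · intro h y hy
    rw [Nat.testBit_land, Bool.and_eq_true] at hy
    obtain ⟨k, hk, hx, hM⟩ := h y hy.2
    have hne : k ≠ L[i] := by
      rintro rfl; rw [hy.1] at hM; simp at hM
    rw [Function.update_of_ne hne] at hx
    exact ⟨k, (mem_eraseIdx hL hi k).mpr ⟨hk, hne⟩, hx, hM⟩
  · intro h y hy
    by_cases hMy : (M L[i]).testBit y = true
    · obtain ⟨k, hk, hx, hM⟩ := h y (by rw [Nat.testBit_land, hMy, hy]; rfl)
      obtain ⟨hk1, hk2⟩ := (mem_eraseIdx hL hi k).mp hk
      exact ⟨k, hk1, by rw [Function.update_of_ne hk2]; exact hx, hM⟩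
    · exact ⟨L[i], List.getElem_mem hi, by simp, by simpa using hMy⟩

/-- The trivial decision tree. -/
theorem depth_G (M : ι → ℕ) (c : ℕ) (n : ℕ) (L : List ι) (hL : L.Nodup) (hn : L.length = n) :
    Depth n (G M L c) := by
  induction n generalizing L c with
  | zero =>
    have : L = [] := List.length_eq_zero_iff.mp hn
    subst this
    exact Depth.const _ _ fun x y => by rw [G_eq_iff]; simp
  | succ n ih =>
    have hi : 0 < L.length := by omega
    have hlen : (L.eraseIdx 0).length = n := by
      rw [List.length_eraseIdx_of_lt hi]; omega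
    have hnd : (L.eraseIdx 0).Nodup := hL.sublist (List.eraseIdx_sublist _ _)
    refine Depth.node _ _ L[0] ?_ ?_
    · simp only [G_false hL hi]; exact ih _ _ hnd hlen
    · simp only [G_true hL hi]; exact ih _ _ hnd hlen

omit [DecidableEq ι] in
theorem keepL_map (M : ι → ℕ) : ∀ (L : List ι) (cs : List ℕ),
    keepL (L.map M) cs = (keepL L cs).map M
  | [], _ => rfl
  | _ :: _, [] => rfl
  | r :: R, k :: cs => by
    cases k with
    | zero => simp only [List.map_cons, keepL]; rw [keepL_map M R cs]
    | succ j => simp only [List.map_cons, keepL]; rw [keepL_map M R cs]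

omit [DecidableEq ι] in
theorem keepL_sublist : ∀ (L : List ι) (cs : List ℕ), (keepL L cs).Sublist L
  | [], _ => List.Sublist.refl _
  | _ :: _, [] => List.Sublist.refl _
  | r :: R, k :: cs => by
    cases k with
    | zero => exact (keepL_sublist R cs).cons_cons r
    | succ j => exact (keepL_sublist R cs).cons r

omit [DecidableEq ι] in
theorem domOK_spec (M : ι → ℕ) (K : List ι) (c : ℕ) : ∀ (L : List ι) (cs : List ℕ),
    domOK (K.map M) c (L.map M) cs = true →
    ∀ i ∈ L, i ∈ keepL L cs ∨ ∃ j ∈ K, (M i &&& c) &&& M j = M i &&& c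
  | [], _, _ => by simp
  | _ :: _, [], _ => fun i hi => Or.inl hi
  | r :: R, k :: cs, h => by
    intro i hi
    cases k with
    | zero =>
      simp only [List.map_cons, domOK] at h
      rcases List.mem_cons.mp hi with rfl | hi'
      · exact Or.inl (List.mem_cons_self)
      · rcases domOK_spec M K c R cs h i hi' with h1 | h1
        · exact Or.inl (List.mem_cons_of_mem _ h1)
        · exact Or.inr h1
    | succ j =>
      simp only [List.map_cons, domOK, Bool.and_eq_true] at h
      obtain ⟨h0, h⟩ := h
      rcases List.mem_cons.mp hi with rfl | hi'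
      · right
        rw [List.getElem?_map] at h0
        rcases hj : K[j]? with _ | d
        · rw [hj] at h0; simp at h0
        · rw [hj] at h0
          simp only [Option.map_some] at h0
          exact ⟨d, List.mem_of_getElem? hj, Nat.eq_of_beq_eq_true h0⟩
      · exact domOK_spec M K c R cs h i hi'

/-- A cone is non-evasive. -/
theorem depth_cone (M : ι → ℕ) (L : List ι) (c : ℕ) (hL : L.Nodup) (b : ι) (hb : b ∈ L)
    (hc : c &&& M b = c) : Depth (L.length - 1) (G M L c) := by
  obtain ⟨q, hq, hqb⟩ := List.getElem_of_mem hb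
  have hG : G M L c = G M (L.eraseIdx q) c := by
    funext x
    rw [G_eq_iff]
    constructor
    · intro h y hy
      obtain ⟨k, hk, hx, hM⟩ := h y hy
      have hne : k ≠ L[q] := by
        rintro rfl
        rw [hqb] at hM
        rw [← hc, Nat.testBit_land, hM] at hy
        simp at hy
      exact ⟨k, (mem_eraseIdx hL hq k).mpr ⟨hk, hne⟩, hx, hM⟩
    · intro h y hy
      obtain ⟨k, hk, hx, hM⟩ := h y hy
      exact ⟨k, ((mem_eraseIdx hL hq k).mp hk).1, hx, hM⟩
  rw [hG]
  exact depth_G M _ _ _ (hL.sublist (List.eraseIdx_sublist _ _)) (List.length_eraseIdx_of_lt hq)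

theorem batch (M : ι → ℕ) (c : ℕ) (L' : List ι) (hL' : L'.Nodup) (hne : L' ≠ []) :
    ∀ (n : ℕ) (L : List ι), L.Nodup → (∀ i ∈ L', i ∈ L) →
    (∀ i ∈ L, i ∈ L' ∨ ∃ j ∈ L', (M i &&& c) &&& M j = M i &&& c) →
    L.length = L'.length + n → Depth (L'.length - 1) (G M L' c) →
    Depth (L.length - 1) (G M L c) := by
  intro n
  induction n with
  | zero =>
    intro L hL hsub hdom hlen hD
    have hperm : ∀ i, i ∈ L ↔ i ∈ L' := by
      have h1 : L'.toFinset ⊆ L.toFinset := by
        intro i hi
        rw [List.mem_toFinset] at hi ⊢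
        exact hsub i hi
      have h2 : L'.toFinset = L.toFinset := by
        apply Finset.eq_of_subset_of_card_le h1
        rw [List.toFinset_card_of_nodup hL, List.toFinset_card_of_nodup hL', hlen]
        omega
      intro i
      rw [← List.mem_toFinset, ← h2, List.mem_toFinset]
    have hG : G M L c = G M L' c := by
      funext x
      rw [G_eq_iff]
      simp only [hperm]
    rw [hG, hlen]
    exact hD
  | succ n ih =>
    intro L hL hsub hdom hlen hD
    have hex : ∃ i ∈ L, i ∉ L' := by
      by_contra hcon
      push Not at hcon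
      have h1 : L.toFinset ⊆ L'.toFinset := by
        intro i hi
        rw [List.mem_toFinset] at hi ⊢
        exact hcon i hi
      have h2 := Finset.card_le_card h1
      rw [List.toFinset_card_of_nodup hL, List.toFinset_card_of_nodup hL'] at h2
      omega
    obtain ⟨i, hi, hi'⟩ := hex
    obtain ⟨p, hp, hpi⟩ := List.getElem_of_mem hi
    have hnd : (L.eraseIdx p).Nodup := hL.sublist (List.eraseIdx_sublist _ _)
    have hlen2 : (L.eraseIdx p).length = L'.length + n := by
      rw [List.length_eraseIdx_of_lt hp]; omega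
    have hmem : ∀ k, k ∈ L.eraseIdx p ↔ k ∈ L ∧ k ≠ i := by
      intro k; rw [mem_eraseIdx hL hp, hpi]
    have hrest := ih (L.eraseIdx p) hnd
      (fun k hk => (hmem k).mpr ⟨hsub k hk, fun e => hi' (e ▸ hk)⟩)
      (fun k hk => hdom k ((hmem k).mp hk).1) hlen2 hD
    have hpos : 0 < L'.length := List.length_pos_iff.mpr hne
    obtain ⟨q, hq⟩ : ∃ q, L.length - 1 = q + 1 := ⟨L.length - 2, by omega⟩
    rw [hq]
    have hq2 : (L.eraseIdx p).length - 1 = q := by rw [hlen2]; omega
    rw [hq2] at hrest
    refine Depth.node _ _ L[p] ?_ ?_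
    · simp only [G_false hL hp]; exact hrest
    · simp only [G_true hL hp]
      rw [hpi]
      rcases hdom i hi with h1 | ⟨j, hj, hij⟩
      · exact absurd h1 hi'
      · have := depth_cone M (L.eraseIdx p) (M i &&& c) hnd j
          ((hmem j).mpr ⟨hsub j hj, fun e => hi' (e ▸ hj)⟩) hij
        rw [hq2] at this
        exact this

theorem chk_sound (M : ι → ℕ) : ∀ (C : Cert) (L : List ι) (c : ℕ), L.Nodup →
    chk C (L.map M) c = true → L ≠ [] ∧ Depth (L.length - 1) (G M L c)
  | .leaf j, L, c, hL, h => by
    rw [chk] at h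
    rw [List.getElem?_map] at h
    rcases hj : L[j]? with _ | k
    · rw [hj] at h; simp at h
    · rw [hj] at h
      simp only [Option.map_some] at h
      have hmc : M k &&& c = c := Nat.eq_of_beq_eq_true h
      obtain ⟨hjl, hk⟩ := List.getElem?_eq_some_iff.mp hj
      refine ⟨fun h0 => by rw [h0] at hjl; simp at hjl, ?_⟩
      have hG : G M L c = G M (L.eraseIdx j) c := by
        funext x
        rw [G_eq_iff]
        constructor
        · intro h y hy
          obtain ⟨i, hi, hx, hM⟩ := h y hy
          have hne : i ≠ L[j] := by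
            rintro rfl
            rw [hk] at hM
            rw [← hmc, Nat.testBit_land, hM] at hy
            simp at hy
          exact ⟨i, (mem_eraseIdx hL hjl i).mpr ⟨hi, hne⟩, hx, hM⟩
        · intro h y hy
          obtain ⟨i, hi, hx, hM⟩ := h y hy
          exact ⟨i, ((mem_eraseIdx hL hjl i).mp hi).1, hx, hM⟩
      rw [hG]
      exact depth_G M c _ _ (hL.sublist (List.eraseIdx_sublist _ _))
        (List.length_eraseIdx_of_lt hjl)
  | .dom i j rest, L, c, hL, h => by
    rw [chk] at h
    rw [List.getElem?_map, List.getElem?_map] at h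
    rcases hi : L[i]? with _ | a
    · rw [hi] at h; simp at h
    rcases hj : L[j]? with _ | b
    · rw [hi, hj] at h; simp at h
    rw [hi, hj] at h
    simp only [Option.map_some, Bool.and_eq_true, Bool.not_eq_true'] at h
    obtain ⟨⟨hab, hij⟩, hrest⟩ := h
    have hab : (M a &&& c) &&& M b = M a &&& c := Nat.eq_of_beq_eq_true hab
    have hij : i ≠ j := by
      intro e; rw [e] at hij; simp at hij
    obtain ⟨hil, ha⟩ := List.getElem?_eq_some_iff.mp hi
    obtain ⟨hjl, hb⟩ := List.getElem?_eq_some_iff.mp hj
    rw [List.eraseIdx_map] at hrest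
    have hnd : (L.eraseIdx i).Nodup := hL.sublist (List.eraseIdx_sublist _ _)
    obtain ⟨hne, hD⟩ := chk_sound M rest (L.eraseIdx i) c hnd hrest
    have hlen : (L.eraseIdx i).length = L.length - 1 := List.length_eraseIdx_of_lt hil
    refine ⟨fun h0 => by rw [h0] at hil; simp at hil, ?_⟩
    have hpos : 0 < (L.eraseIdx i).length := List.length_pos_iff.mpr hne
    obtain ⟨n, hn⟩ : ∃ n, L.length - 1 = n + 1 := ⟨L.length - 2, by omega⟩
    rw [hn]
    rw [hlen, hn] at hD
    refine Depth.node _ _ L[i] ?_ ?_
    · simp only [G_false hL hil]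
      simpa using hD
    · simp only [G_true hL hil]
      rw [ha]
      -- the link is a cone with apex `b`
      have hbmem : b ∈ L.eraseIdx i := by
        rw [mem_eraseIdx hL hil]
        refine ⟨hb ▸ List.getElem_mem hjl, ?_⟩
        rw [← hb]
        intro e
        exact hij ((hL.getElem_inj_iff).mp e).symm
      obtain ⟨q, hq, hqb⟩ := List.getElem_of_mem hbmem
      have hG : G M (L.eraseIdx i) (M a &&& c) = G M ((L.eraseIdx i).eraseIdx q) (M a &&& c) := by
        funext x
        rw [G_eq_iff]
        constructor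
        · intro h y hy
          obtain ⟨k, hk, hx, hM⟩ := h y hy
          have hne : k ≠ (L.eraseIdx i)[q] := by
            rintro rfl
            rw [hqb] at hM
            rw [← hab, Nat.testBit_land, hM] at hy
            simp at hy
          exact ⟨k, (mem_eraseIdx hnd hq k).mpr ⟨hk, hne⟩, hx, hM⟩
        · intro h y hy
          obtain ⟨k, hk, hx, hM⟩ := h y hy
          exact ⟨k, ((mem_eraseIdx hnd hq k).mp hk).1, hx, hM⟩
      rw [hG]
      refine depth_G M _ _ _ (hnd.sublist (List.eraseIdx_sublist _ _)) ?_
      rw [List.length_eraseIdx_of_lt hq]; omega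
  | .col y y' rest, L, c, hL, h => by
    rw [chk] at h
    simp only [Bool.and_eq_true, Bool.not_eq_true'] at h
    obtain ⟨⟨⟨⟨hy, hy'⟩, hne⟩, hall⟩, hrest⟩ := h
    have hne : y ≠ y' := by
      intro e; rw [e] at hne; simp at hne
    obtain ⟨hn, hD⟩ := chk_sound M rest L _ hL hrest
    refine ⟨hn, ?_⟩
    have hG : G M L c = G M L (c ^^^ (1 <<< y)) := by
      funext x
      rw [G_eq_iff]
      have hbit : ∀ z, (c ^^^ (1 <<< y)).testBit z = true ↔ (c.testBit z = true ∧ z ≠ y) := by
        intro z
        rw [Nat.testBit_xor, Nat.testBit_shiftLeft]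
        by_cases hz : z = y
        · subst hz
          simp [hy]
        · by_cases hzy : y ≤ z
          · have h2 : Nat.testBit 1 (z - y) = false := by
              obtain ⟨k, hk⟩ : ∃ k, z - y = k + 1 := ⟨z - y - 1, by omega⟩
              rw [hk, Nat.testBit_succ]; simp
            simp [hzy, h2, hz]
          · simp [hzy, hz]
      constructor
      · intro h z hz
        exact h z ((hbit z).mp hz).1
      · intro h z hz
        by_cases hzy : z = y
        · subst hzy
          obtain ⟨k, hk, hx, hM⟩ := h y' ((hbit y').mpr ⟨hy', fun e => hne e.symm⟩)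
          refine ⟨k, hk, hx, ?_⟩
          have := List.all_eq_true.mp hall (M k) (List.mem_map_of_mem hk)
          simp only [Bool.or_eq_true, Bool.not_eq_true'] at this
          rcases this with h1 | h1
          · exact h1
          · rw [hM] at h1; simp at h1
        · exact h z ((hbit z).mpr ⟨hz, hzy⟩)
    rw [hG]
    exact hD
  | .del i link rest, L, c, hL, h => by
    rw [chk] at h
    rw [List.getElem?_map] at h
    rcases hi : L[i]? with _ | a
    · rw [hi] at h; simp at h
    rw [hi] at h
    simp only [Option.map_some, Bool.and_eq_true] at h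
    obtain ⟨hlink, hrest⟩ := h
    obtain ⟨hil, ha⟩ := List.getElem?_eq_some_iff.mp hi
    rw [List.eraseIdx_map] at hrest hlink
    have hnd : (L.eraseIdx i).Nodup := hL.sublist (List.eraseIdx_sublist _ _)
    obtain ⟨hne, hD⟩ := chk_sound M rest (L.eraseIdx i) c hnd hrest
    obtain ⟨_, hD'⟩ := chk_sound M link (L.eraseIdx i) _ hnd hlink
    have hlen : (L.eraseIdx i).length = L.length - 1 := List.length_eraseIdx_of_lt hil
    refine ⟨fun h0 => by rw [h0] at hil; simp at hil, ?_⟩
    have hpos : 0 < (L.eraseIdx i).length := List.length_pos_iff.mpr hne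
    obtain ⟨n, hn⟩ : ∃ n, L.length - 1 = n + 1 := ⟨L.length - 2, by omega⟩
    rw [hn]
    rw [hlen, hn] at hD hD'
    refine Depth.node _ _ L[i] ?_ ?_
    · simp only [G_false hL hil]
      simpa using hD
    · simp only [G_true hL hil]
      rw [ha]
      simpa using hD'

  | .bat codes rest, L, c, hL, h => by
    rw [chk] at h
    simp only [Bool.and_eq_true] at h
    obtain ⟨hdom, hrest⟩ := h
    rw [keepL_map] at hrest hdom
    have hnd : (keepL L codes).Nodup := hL.sublist (keepL_sublist L codes)
    obtain ⟨hne, hD⟩ := chk_sound M rest (keepL L codes) c hnd hrest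
    have hsub : ∀ i ∈ keepL L codes, i ∈ L := fun i hi => (keepL_sublist L codes).subset hi
    refine ⟨fun h0 => ?_, ?_⟩
    · obtain ⟨i, hi⟩ := List.exists_mem_of_ne_nil _ hne
      have := hsub i hi
      rw [h0] at this
      simp at this
    · exact batch M c (keepL L codes) hnd hne (L.length - (keepL L codes).length) L hL hsub
        (domOK_spec M _ c L codes hdom)
        (by have := (keepL_sublist L codes).length_le; omega) hD

end Pool.Agent.Helper22.Evas
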