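import Mathlib.Data.List.FinRange
import Pool.Agent.Helper22.Evas.Checker
import Pool.Agent.Helper22.Evas.Reduction

/-! From matrix data and a certificate to the refutation. -/

namespace Pool.Agent.Helper22.Evas

/-- Permutation data as a list of numbers. -/
def look (n : ℕ) [NeZero n] (s : List ℕ) (i : Fin n) : Fin n := Fin.ofNat n (s.getD i.val 0)

/-- Apply a word in the generators to a point. -/
def walk {n : ℕ} (gens : List (Fin n → Fin n)) (i : Fin n) : List ℕ → Fin n
  | [] => i
  | k :: ks => match gens[k]? with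
    | some g => g (walk gens i ks)
    | none => walk gens i ks

theorem inv_of_cols {n m : ℕ} (M : Fin n → ℕ) (σ : Equiv.Perm (Fin n)) (π : Equiv.Perm (Fin m))
    (h : ∀ i y, (M i).testBit (y : Fin m).val = (M (σ i)).testBit (π y).val)
    (x : Fin n → Bool) :
    G M (List.finRange n) (2 ^ m - 1) (x ∘ σ) = G M (List.finRange n) (2 ^ m - 1) x := by
  have hb : ∀ y, (2 ^ m - 1).testBit y = true ↔ y < m := by
    intro y; rw [Nat.testBit_two_pow_sub_one]; simp
  rw [G_eq_iff]
  constructor
  · intro H y hy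
    rw [hb] at hy
    obtain ⟨i, _, hx, hM⟩ := H (π.symm ⟨y, hy⟩).val ((hb _).mpr (π.symm ⟨y, hy⟩).2)
    refine ⟨σ i, List.mem_finRange _, hx, ?_⟩
    rw [h, Equiv.apply_symm_apply] at hM
    exact hM
  · intro H y hy
    rw [hb] at hy
    obtain ⟨i, _, hx, hM⟩ := H (π ⟨y, hy⟩).val ((hb _).mpr (π ⟨y, hy⟩).2)
    refine ⟨σ.symm i, List.mem_finRange _, by simpa using hx, ?_⟩
    have := h (σ.symm i) ⟨y, hy⟩
    rw [Equiv.apply_symm_apply] at this
    rw [← hM]; exact this

/-- Data of one generator: row permutation, its inverse, column permutation, its inverse. -/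
structure Gen where
  s : List ℕ
  s' : List ℕ
  p : List ℕ
  p' : List ℕ

/-- Validity check of a generator. -/
def Gen.ok (n m : ℕ) [NeZero n] [NeZero m] (R : List ℕ) (g : Gen) : Bool :=
  ((List.finRange n).all fun i => look n g.s' (look n g.s i) == i && look n g.s (look n g.s' i) == i) &&
  ((List.finRange m).all fun y => look m g.p' (look m g.p y) == y && look m g.p (look m g.p' y) == y) &&
  ((List.finRange n).all fun i => (List.finRange m).all fun y =>
    (R.getD i.val 0).testBit y.val == (R.getD (look n g.s i).val 0).testBit (look m g.p y).val)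

theorem good_of_cert {n m : ℕ} [NeZero n] [NeZero m] (R : List ℕ) (hR : R.length = n)
    (C : Cert) (hC : chk C R (2 ^ m - 1) = true) (gens : List Gen)
    (hg : (gens.all fun g => g.ok n m R) = true) (i0 : Fin n) (w : List (List ℕ))
    (hw : ((List.finRange n).all fun j =>
      walk (gens.map fun g => look n g.s) i0 (w.getD j.val []) == j) = true)
    (htop : ((List.finRange m).all fun y => R.any fun r => !(r.testBit y.val)) = true) :
    Good (G (fun i : Fin n => R.getD i.val 0) (List.finRange n) (2 ^ m - 1)) (n - 1) := by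
  set M : Fin n → ℕ := fun i => R.getD i.val 0 with hM
  have hmap : (List.finRange n).map M = R := by
    apply List.ext_getElem
    · simp [hR]
    · intro i h1 h2
      simp [hM, List.getD_eq_getElem?_getD, h2]
  have hb : ∀ y, (2 ^ m - 1).testBit y = true ↔ y < m := by
    intro y; rw [Nat.testBit_two_pow_sub_one]; simp
  have hsym : ∀ g ∈ gens, ∃ σ : Equiv.Perm (Fin n), (∀ i, σ i = look n g.s i) ∧
      ∀ x, G M (List.finRange n) (2 ^ m - 1) (x ∘ σ) = G M (List.finRange n) (2 ^ m - 1) x := by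
    intro g hgm
    have h := List.all_eq_true.mp hg g hgm
    unfold Gen.ok at h
    simp only [Bool.and_eq_true, List.all_eq_true, List.mem_finRange, forall_const,
      beq_iff_eq] at h
    obtain ⟨⟨h1, h2⟩, h3⟩ := h
    let σ : Equiv.Perm (Fin n) := ⟨look n g.s, look n g.s', fun i => (h1 i).1, fun i => (h1 i).2⟩
    let π : Equiv.Perm (Fin m) := ⟨look m g.p, look m g.p', fun i => (h2 i).1, fun i => (h2 i).2⟩
    exact ⟨σ, fun i => rfl, fun x => inv_of_cols M σ π (fun i y => h3 i y) x⟩
  have hreach : ∀ ks : List ℕ, ∃ σ : Equiv.Perm (Fin n),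
      σ i0 = walk (gens.map fun g => look n g.s) i0 ks ∧
      ∀ x, G M (List.finRange n) (2 ^ m - 1) (x ∘ σ) = G M (List.finRange n) (2 ^ m - 1) x := by
    intro ks
    induction ks with
    | nil => exact ⟨1, rfl, fun x => rfl⟩
    | cons k ks ih =>
      obtain ⟨σ, hσ, hσ'⟩ := ih
      rcases hk : gens[k]? with _ | g
      · refine ⟨σ, ?_, hσ'⟩
        rw [hσ, walk, List.getElem?_map, hk]; rfl
      · obtain ⟨ρ, hρ, hρ'⟩ := hsym g (List.mem_of_getElem? hk)
        refine ⟨σ.trans ρ, ?_, fun x => ?_⟩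
        · rw [walk, List.getElem?_map, hk]
          change ρ (σ i0) = _
          rw [hσ, hρ]; rfl
        · have e : x ∘ (σ.trans ρ) = (x ∘ ρ) ∘ σ := by funext i; rfl
          rw [e, hσ', hρ']
  refine ⟨?_, ?_, ?_, ?_, ?_⟩
  · intro x y hxy
    rw [Bool.le_iff_imp]
    intro h
    rw [G_eq_true] at h ⊢
    intro z hz
    obtain ⟨i, hi, hx, hMz⟩ := h z hz
    exact ⟨i, hi, (Bool.le_iff_imp.mp (hxy i)) hx, hMz⟩
  · rw [Bool.eq_false_iff, ne_eq, G_eq_true]
    intro h
    obtain ⟨i, _, hx, _⟩ := h 0 ((hb 0).mpr (Nat.pos_of_ne_zero (NeZero.ne m)))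
    simp at hx
  · rw [G_eq_true]
    intro y hy
    rw [hb] at hy
    have h := List.all_eq_true.mp htop ⟨y, hy⟩ (List.mem_finRange _)
    obtain ⟨r, hr, hry⟩ := List.any_eq_true.mp h
    rw [← hmap] at hr
    obtain ⟨i, hi, rfl⟩ := List.mem_map.mp hr
    exact ⟨i, hi, rfl, by simpa using hry⟩
  · intro i j
    have hwi := List.all_eq_true.mp hw i (List.mem_finRange _)
    have hwj := List.all_eq_true.mp hw j (List.mem_finRange _)
    rw [beq_iff_eq] at hwi hwj
    obtain ⟨σ, hσ, hσ'⟩ := hreach (w.getD i.val [])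
    obtain ⟨ρ, hρ, hρ'⟩ := hreach (w.getD j.val [])
    rw [hwi] at hσ
    rw [hwj] at hρ
    refine ⟨σ.symm.trans ρ, ?_, fun x => ?_⟩
    · change ρ (σ.symm i) = j
      rw [← hσ, Equiv.symm_apply_apply, hρ]
    · have e : (x ∘ (σ.symm.trans ρ)) ∘ σ = x ∘ ρ := by
        funext k; simp
      rw [← hσ' (x ∘ (σ.symm.trans ρ)), e, hρ']
  · have h := chk_sound M C (List.finRange n) (2 ^ m - 1) (List.nodup_finRange n)
      (by rw [hmap]; exact hC)
    have := h.2
    rwa [List.length_finRange] at this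

end Pool.Agent.Helper22.Evas
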