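import Mathlib.Data.Fintype.Card
import Pool.Agent.Helper22.Evas.Checker

/-! Certificates for complexes given by a list of facets (bitmasks over the vertices). -/

namespace Pool.Agent.Helper22.Evas

/-- Certificates on the facet side. Vertices are numbers. -/
inductive Cert2 : Type
  | leaf (j : ℕ) : Cert2
  | prune (codes : List ℕ) (rest : Cert2) : Cert2
  | dom (v w : ℕ) (rest : Cert2) : Cert2
  | del (v : ℕ) (link rest : Cert2) : Cert2

/-- The checker: facets `F`, alive vertices `A`. -/
def chk2 : Cert2 → List ℕ → ℕ → Bool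
  | .leaf j, F, A => Nat.testBit A j && F.all (fun f => Nat.testBit f j)
  | .prune codes rest, F, A =>
      domOK (keepL F codes) A F codes && chk2 rest (keepL F codes) A
  | .dom v w rest, F, A =>
      Nat.testBit A v && Nat.testBit A w && !(Nat.beq v w) &&
        F.all (fun f => !(Nat.testBit f v) || Nat.testBit f w) &&
        chk2 rest F (Nat.xor A (Nat.shiftLeft 1 v))
  | .del v link rest, F, A =>
      Nat.testBit A v && chk2 link (F.filter fun f => Nat.testBit f v)
        (Nat.xor A (Nat.shiftLeft 1 v)) && chk2 rest F (Nat.xor A (Nat.shiftLeft 1 v))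

variable {n : ℕ}

open Classical in
/-- Indicator of the non-faces. -/
noncomputable def Gd (F : List ℕ) (A : ℕ) (x : Fin n → Bool) : Bool :=
  decide (∀ f ∈ F, ∃ i : Fin n, A.testBit i.val = true ∧ x i = true ∧ f.testBit i.val = false)

theorem Gd_eq_iff {F F' : List ℕ} {A A' : ℕ} {x x' : Fin n → Bool} :
    Gd F A x = Gd F' A' x' ↔
      ((∀ f ∈ F, ∃ i : Fin n, A.testBit i.val = true ∧ x i = true ∧ f.testBit i.val = false) ↔
        (∀ f ∈ F', ∃ i : Fin n,
          A'.testBit i.val = true ∧ x' i = true ∧ f.testBit i.val = false)) := by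
  unfold Gd
  rw [decide_eq_decide]

theorem Gd_eq_true {F : List ℕ} {A : ℕ} {x : Fin n → Bool} :
    Gd F A x = true ↔
      (∀ f ∈ F, ∃ i : Fin n,
        A.testBit i.val = true ∧ x i = true ∧ f.testBit i.val = false) := by
  classical
  unfold Gd
  exact decide_eq_true_iff

theorem testBit_remove {A v : ℕ} (hv : A.testBit v = true) (z : ℕ) :
    (Nat.xor A (Nat.shiftLeft 1 v)).testBit z = true ↔ (A.testBit z = true ∧ z ≠ v) := by
  change (A ^^^ (1 <<< v)).testBit z = true ↔ _
  rw [Nat.testBit_xor, Nat.testBit_shiftLeft]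
  by_cases hz : z = v
  · subst hz
    simp [hv]
  · by_cases hzy : v ≤ z
    · have h2 : Nat.testBit 1 (z - v) = false := by
        obtain ⟨k, hk⟩ : ∃ k, z - v = k + 1 := ⟨z - v - 1, by omega⟩
        rw [hk, Nat.testBit_succ]; simp
      simp [hzy, h2, hz]
    · simp [hzy, hz]

theorem Gd_false {F : List ℕ} {A : ℕ} {v : Fin n} (hv : A.testBit v.val = true)
    (x : Fin n → Bool) :
    Gd F A (Function.update x v false) = Gd F (Nat.xor A (Nat.shiftLeft 1 v.val)) x := by
  rw [Gd_eq_iff]
  constructor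
  · intro h f hf
    obtain ⟨i, hA, hx, hM⟩ := h f hf
    have hne : i ≠ v := by
      rintro rfl; simp at hx
    rw [Function.update_of_ne hne] at hx
    exact ⟨i, (testBit_remove hv _).mpr ⟨hA, fun e => hne (Fin.ext e)⟩, hx, hM⟩
  · intro h f hf
    obtain ⟨i, hA, hx, hM⟩ := h f hf
    obtain ⟨h1, h2⟩ := (testBit_remove hv _).mp hA
    refine ⟨i, h1, ?_, hM⟩
    rw [Function.update_of_ne (fun e => h2 (by rw [e]))]
    exact hx

theorem Gd_true {F : List ℕ} {A : ℕ} {v : Fin n} (hv : A.testBit v.val = true)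
    (x : Fin n → Bool) :
    Gd F A (Function.update x v true) =
      Gd (F.filter fun f => Nat.testBit f v.val) (Nat.xor A (Nat.shiftLeft 1 v.val)) x := by
  rw [Gd_eq_iff]
  constructor
  · intro h f hf
    obtain ⟨hf1, hf2⟩ := List.mem_filter.mp hf
    obtain ⟨i, hA, hx, hM⟩ := h f hf1
    have hne : i ≠ v := by
      rintro rfl; rw [hf2] at hM; simp at hM
    rw [Function.update_of_ne hne] at hx
    exact ⟨i, (testBit_remove hv _).mpr ⟨hA, fun e => hne (Fin.ext e)⟩, hx, hM⟩
  · intro h f hf
    by_cases hfv : f.testBit v.val = true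
    · obtain ⟨i, hA, hx, hM⟩ := h f (List.mem_filter.mpr ⟨hf, hfv⟩)
      obtain ⟨h1, h2⟩ := (testBit_remove hv _).mp hA
      refine ⟨i, h1, ?_, hM⟩
      rw [Function.update_of_ne (fun e => h2 (by rw [e]))]
      exact hx
    · exact ⟨v, hv, by simp, by simpa using hfv⟩

/-- The alive vertices. -/
def alive (n : ℕ) (A : ℕ) : Finset (Fin n) := Finset.univ.filter fun i => A.testBit i.val = true

theorem mem_alive {A : ℕ} {i : Fin n} : i ∈ alive n A ↔ A.testBit i.val = true := by
  simp [alive]

theorem alive_remove {A : ℕ} {v : Fin n} (hv : A.testBit v.val = true) :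
    alive n (Nat.xor A (Nat.shiftLeft 1 v.val)) = (alive n A).erase v := by
  ext i
  rw [mem_alive, testBit_remove hv, Finset.mem_erase, mem_alive]
  constructor
  · rintro ⟨h1, h2⟩; exact ⟨fun e => h2 (by rw [e]), h1⟩
  · rintro ⟨h1, h2⟩; exact ⟨h2, fun e => h1 (Fin.ext e)⟩

theorem card_remove {A : ℕ} {v : Fin n} (hv : A.testBit v.val = true) :
    (alive n (Nat.xor A (Nat.shiftLeft 1 v.val))).card = (alive n A).card - 1 := by
  rw [alive_remove hv, Finset.card_erase_of_mem (mem_alive.mpr hv)]

theorem depth_Gd (k : ℕ) : ∀ (F : List ℕ) (A : ℕ), (alive n A).card = k →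
    Depth k (Gd (n := n) F A) := by
  induction k with
  | zero =>
    intro F A h
    have hE : alive n A = ∅ := Finset.card_eq_zero.mp h
    refine Depth.const _ _ fun x y => ?_
    rw [Gd_eq_iff]
    have hno : ∀ i : Fin n, ¬ A.testBit i.val = true := by
      intro i hi
      have := mem_alive.mpr hi
      rw [hE] at this
      simp at this
    constructor
    · intro h f hf
      obtain ⟨i, hi, _⟩ := h f hf
      exact absurd hi (hno i)
    · intro h f hf
      obtain ⟨i, hi, _⟩ := h f hf
      exact absurd hi (hno i)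
  | succ k ih =>
    intro F A h
    obtain ⟨v, hv⟩ := Finset.card_pos.mp (by omega : 0 < (alive n A).card)
    rw [mem_alive] at hv
    refine Depth.node _ _ v ?_ ?_
    · simp only [Gd_false hv]
      exact ih _ _ (by rw [card_remove hv]; omega)
    · simp only [Gd_true hv]
      exact ih _ _ (by rw [card_remove hv]; omega)

theorem depth_cone2 (F : List ℕ) (A : ℕ) {j : Fin n} (hj : A.testBit j.val = true)
    (hF : ∀ f ∈ F, f.testBit j.val = true) : Depth ((alive n A).card - 1) (Gd (n := n) F A) := by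
  have hG : Gd (n := n) F A = Gd F (Nat.xor A (Nat.shiftLeft 1 j.val)) := by
    funext x
    rw [Gd_eq_iff]
    constructor
    · intro h f hf
      obtain ⟨i, hA, hx, hM⟩ := h f hf
      refine ⟨i, (testBit_remove hj _).mpr ⟨hA, fun e => ?_⟩, hx, hM⟩
      rw [e, hF f hf] at hM
      simp at hM
    · intro h f hf
      obtain ⟨i, hA, hx, hM⟩ := h f hf
      exact ⟨i, ((testBit_remove hj _).mp hA).1, hx, hM⟩
  rw [hG]
  exact depth_Gd _ _ _ (card_remove hj)

theorem node2 (F : List ℕ) (A : ℕ) {v : Fin n} (hv : A.testBit v.val = true)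
    (hne : (alive n (Nat.xor A (Nat.shiftLeft 1 v.val))).Nonempty)
    (hlink : Depth ((alive n (Nat.xor A (Nat.shiftLeft 1 v.val))).card - 1)
      (Gd (n := n) (F.filter fun f => Nat.testBit f v.val) (Nat.xor A (Nat.shiftLeft 1 v.val))))
    (hrest : Depth ((alive n (Nat.xor A (Nat.shiftLeft 1 v.val))).card - 1)
      (Gd (n := n) F (Nat.xor A (Nat.shiftLeft 1 v.val)))) :
    Depth ((alive n A).card - 1) (Gd (n := n) F A) := by
  have hpos := Finset.card_pos.mpr hne
  have hc := card_remove (n := n) hv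
  obtain ⟨q, hq⟩ : ∃ q, (alive n A).card - 1 = q + 1 := ⟨(alive n A).card - 2, by omega⟩
  have hq2 : (alive n (Nat.xor A (Nat.shiftLeft 1 v.val))).card - 1 = q := by omega
  rw [hq2] at hlink hrest
  rw [hq]
  refine Depth.node _ _ v ?_ ?_
  · simp only [Gd_false hv]; exact hrest
  · simp only [Gd_true hv]; exact hlink

theorem keepL_mem : ∀ (F : List ℕ) (cs : List ℕ) (f : ℕ), f ∈ keepL F cs → f ∈ F
  | [], _, _, h => h
  | _ :: _, [], _, h => h
  | r :: R, k :: cs, f, h => by
    cases k with
    | zero =>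
      rcases List.mem_cons.mp h with rfl | h'
      · exact List.mem_cons_self
      · exact List.mem_cons_of_mem _ (keepL_mem R cs f h')
    | succ j => exact List.mem_cons_of_mem _ (keepL_mem R cs f h)

theorem domOK_spec2 (K : List ℕ) (c : ℕ) : ∀ (F : List ℕ) (cs : List ℕ),
    domOK K c F cs = true → ∀ f ∈ F, f ∈ keepL F cs ∨ ∃ d ∈ K, (f &&& c) &&& d = f &&& c
  | [], _, _ => by simp
  | _ :: _, [], _ => fun i hi => Or.inl hi
  | r :: R, k :: cs, h => by
    intro i hi
    cases k with
    | zero =>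
      simp only [domOK] at h
      rcases List.mem_cons.mp hi with rfl | hi'
      · exact Or.inl (List.mem_cons_self)
      · rcases domOK_spec2 K c R cs h i hi' with h1 | h1
        · exact Or.inl (List.mem_cons_of_mem _ h1)
        · exact Or.inr h1
    | succ j =>
      simp only [domOK, Bool.and_eq_true] at h
      obtain ⟨h0, h⟩ := h
      rcases List.mem_cons.mp hi with rfl | hi'
      · right
        rcases hj : K[j]? with _ | d
        · rw [hj] at h0; simp at h0
        · rw [hj] at h0
          exact ⟨d, List.mem_of_getElem? hj, Nat.eq_of_beq_eq_true h0⟩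
      · exact domOK_spec2 K c R cs h i hi'

theorem chk2_sound : ∀ (C : Cert2) (F : List ℕ) (A : ℕ), (∀ y, A.testBit y = true → y < n) →
    chk2 C F A = true →
    (alive n A).Nonempty ∧ Depth ((alive n A).card - 1) (Gd (n := n) F A)
  | .leaf j, F, A, hA, h => by
    simp only [chk2, Bool.and_eq_true, List.all_eq_true] at h
    obtain ⟨hj, hF⟩ := h
    have hjn := hA j hj
    exact ⟨⟨⟨j, hjn⟩, mem_alive.mpr hj⟩, depth_cone2 F A (j := ⟨j, hjn⟩) hj hF⟩
  | .prune codes rest, F, A, hA, h => by
    simp only [chk2, Bool.and_eq_true] at h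
    obtain ⟨hd, hrest⟩ := h
    obtain ⟨hne, hD⟩ := chk2_sound rest _ A hA hrest
    refine ⟨hne, ?_⟩
    have hG : Gd (n := n) F A = Gd (keepL F codes) A := by
      funext x
      rw [Gd_eq_iff]
      constructor
      · intro h f hf
        exact h f (keepL_mem F codes f hf)
      · intro h f hf
        rcases domOK_spec2 _ _ F codes hd f hf with h1 | ⟨d, hd1, hd2⟩
        · exact h f h1
        · obtain ⟨i, hA', hx, hM⟩ := h d hd1
          refine ⟨i, hA', hx, ?_⟩
          by_contra hcon
          have hft : f.testBit i.val = true := by simpa using hcon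
          have h3 : (f &&& A).testBit i.val = true := by
            rw [Nat.testBit_land, hft, hA']; rfl
          rw [← hd2, Nat.testBit_land, hM] at h3
          simp at h3
    rw [hG]
    exact hD
  | .dom v w rest, F, A, hA, h => by
    simp only [chk2, Bool.and_eq_true, Bool.not_eq_true', List.all_eq_true] at h
    obtain ⟨⟨⟨⟨hv, hw⟩, hne⟩, hF⟩, hrest⟩ := h
    have hvw : v ≠ w := by
      intro e; rw [e] at hne; simp at hne
    have hvn := hA v hv
    have hwn := hA w hw
    have hA' : ∀ y, (Nat.xor A (Nat.shiftLeft 1 v)).testBit y = true → y < n :=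
      fun y hy => hA y ((testBit_remove hv y).mp hy).1
    obtain ⟨hne', hD⟩ := chk2_sound rest F _ hA' hrest
    refine ⟨⟨⟨v, hvn⟩, mem_alive.mpr hv⟩, node2 F A (v := ⟨v, hvn⟩) hv hne' ?_ hD⟩
    refine depth_cone2 _ _ (j := ⟨w, hwn⟩)
      ((testBit_remove hv w).mpr ⟨hw, fun e => hvw e.symm⟩) ?_
    intro f hf
    obtain ⟨hf1, hf2⟩ := List.mem_filter.mp hf
    have := hF f hf1
    rw [hf2] at this
    simpa using this
  | .del v link rest, F, A, hA, h => by
    simp only [chk2, Bool.and_eq_true] at h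
    obtain ⟨⟨hv, hlink⟩, hrest⟩ := h
    have hvn := hA v hv
    have hA' : ∀ y, (Nat.xor A (Nat.shiftLeft 1 v)).testBit y = true → y < n :=
      fun y hy => hA y ((testBit_remove hv y).mp hy).1
    obtain ⟨hne', hD⟩ := chk2_sound rest F _ hA' hrest
    obtain ⟨_, hD'⟩ := chk2_sound link _ _ hA' hlink
    exact ⟨⟨⟨v, hvn⟩, mem_alive.mpr hv⟩, node2 F A (v := ⟨v, hvn⟩) hv hne' hD' hD⟩

end Pool.Agent.Helper22.Evas
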