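import Pool.Agent.Helper22.Evas.Assemble
import Pool.Agent.Helper22.Evas.Dual

/-! From facet data and a facet-side certificate to the refutation. -/

namespace Pool.Agent.Helper22.Evas

/-- `g` is the image of `f` under the vertex permutation `s`. -/
def imgOK (n : ℕ) [NeZero n] (s : List ℕ) (f g : ℕ) : Bool :=
  (List.finRange n).all fun i => Nat.testBit f i.val == Nat.testBit g (look n s i).val

/-- Closure of the facet list under `s`, the image of the `k`-th facet being the `p k`-th. -/
def closedOK (n : ℕ) [NeZero n] (F : List ℕ) (s p : List ℕ) : Bool :=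
  (F.zip p).all (fun q => Nat.blt q.2 F.length && imgOK n s q.1 (F.getD q.2 0)) &&
    Nat.beq p.length F.length

/-- Generator check on the facet side. -/
def Gen.ok2 (n : ℕ) [NeZero n] (F : List ℕ) (g : Gen) : Bool :=
  ((List.finRange n).all fun i => look n g.s' (look n g.s i) == i && look n g.s (look n g.s' i) == i) &&
  closedOK n F g.s g.p && closedOK n F g.s' g.p'

theorem closedOK_spec {n : ℕ} [NeZero n] {F : List ℕ} {s p : List ℕ}
    (h : closedOK n F s p = true) : ∀ f ∈ F, ∃ g ∈ F, ∀ i : Fin n,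
      f.testBit i.val = g.testBit (look n s i).val := by
  unfold closedOK at h
  simp only [Bool.and_eq_true, List.all_eq_true] at h
  obtain ⟨h1, h2⟩ := h
  have hlen : p.length = F.length := Nat.eq_of_beq_eq_true h2
  intro f hf
  obtain ⟨k, hk, rfl⟩ := List.getElem_of_mem hf
  have hkp : k < p.length := by omega
  have hmem : (F[k], p[k]) ∈ F.zip p := by
    rw [List.mem_iff_getElem]
    refine ⟨k, by rw [List.length_zip]; omega, ?_⟩
    rw [List.getElem_zip]
  have h3 := h1 _ hmem
  obtain ⟨h4, h5⟩ := h3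
  have h4 : p[k] < F.length := Nat.blt_eq.mp h4
  refine ⟨F[p[k]], List.getElem_mem h4, fun i => ?_⟩
  unfold imgOK at h5
  simp only [List.all_eq_true, List.mem_finRange, forall_const, beq_iff_eq] at h5
  have h6 := h5 i
  rw [List.getD_eq_getElem?_getD, List.getElem?_eq_getElem h4, Option.getD_some] at h6
  exact h6

theorem good_of_cert2 {n : ℕ} [NeZero n] (F : List ℕ)
    (C : Cert2) (hC : chk2 C F (2 ^ n - 1) = true) (gens : List Gen)
    (hg : (gens.all fun g => g.ok2 n F) = true) (i0 : Fin n) (w : List (List ℕ))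
    (hw : ((List.finRange n).all fun j =>
      walk (gens.map fun g => look n g.s) i0 (w.getD j.val []) == j) = true)
    (hbot : F.isEmpty = false)
    (htop : (F.all fun f => (List.finRange n).any fun i => !(Nat.testBit f i.val)) = true) :
    Good (Gd (n := n) F (2 ^ n - 1)) (n - 1) := by
  have hb : ∀ y, (2 ^ n - 1).testBit y = true ↔ y < n := by
    intro y; rw [Nat.testBit_two_pow_sub_one]; simp
  have hsym : ∀ g ∈ gens, ∃ σ : Equiv.Perm (Fin n), (∀ i, σ i = look n g.s i) ∧
      ∀ x, Gd F (2 ^ n - 1) (x ∘ σ) = Gd F (2 ^ n - 1) x := by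
    intro g hgm
    have h := List.all_eq_true.mp hg g hgm
    unfold Gen.ok2 at h
    simp only [Bool.and_eq_true, List.all_eq_true, List.mem_finRange, forall_const,
      beq_iff_eq] at h
    obtain ⟨⟨h1, h2⟩, h3⟩ := h
    let σ : Equiv.Perm (Fin n) := ⟨look n g.s, look n g.s', fun i => (h1 i).1, fun i => (h1 i).2⟩
    have hσ : ∀ i, σ i = look n g.s i := fun i => rfl
    have hσ' : ∀ i, σ.symm i = look n g.s' i := fun i => rfl
    refine ⟨σ, hσ, fun x => ?_⟩
    rw [Gd_eq_iff]
    constructor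
    · intro H f hf
      obtain ⟨f', hf', hff⟩ := closedOK_spec h3 f hf
      obtain ⟨i, _, hx, hM⟩ := H f' hf'
      refine ⟨σ i, (hb _).mpr (σ i).2, hx, ?_⟩
      rw [hff, ← hσ', Equiv.symm_apply_apply]
      exact hM
    · intro H f hf
      obtain ⟨f', hf', hff⟩ := closedOK_spec h2 f hf
      obtain ⟨j, _, hx, hM⟩ := H f' hf'
      refine ⟨σ.symm j, (hb _).mpr (σ.symm j).2, by simpa using hx, ?_⟩
      rw [hff, ← hσ, Equiv.apply_symm_apply]
      exact hM
  have hreach : ∀ ks : List ℕ, ∃ σ : Equiv.Perm (Fin n),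
      σ i0 = walk (gens.map fun g => look n g.s) i0 ks ∧
      ∀ x, Gd F (2 ^ n - 1) (x ∘ σ) = Gd F (2 ^ n - 1) x := by
    intro ks
    induction ks with
    | nil => exact ⟨1, rfl, fun x => rfl⟩
    | cons k ks ih =>
      obtain ⟨σ, hσ, hσ'⟩ := ih
      rcases hk : gens[k]? with _ | g
      · refine ⟨σ, ?_, hσ'⟩
        rw [hσ, walk, List.getElem?_map, hk]; rfl
      · obtain ⟨ρ, hρ, hρ'⟩ := hsym g (List.mem_of_getElem? hk)
        refine ⟨σ.trans ρ, ?_, fun x => ?_⟩
        · rw [walk, List.getElem?_map, hk]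
          change ρ (σ i0) = _
          rw [hσ, hρ]; rfl
        · have e : x ∘ (σ.trans ρ) = (x ∘ ρ) ∘ σ := by funext i; rfl
          rw [e, hσ', hρ']
  refine ⟨?_, ?_, ?_, ?_, ?_⟩
  · intro x y hxy
    rw [Bool.le_iff_imp]
    intro h
    rw [Gd_eq_true] at h ⊢
    intro z hz
    obtain ⟨i, hi, hx, hMz⟩ := h z hz
    exact ⟨i, hi, (Bool.le_iff_imp.mp (hxy i)) hx, hMz⟩
  · rw [Bool.eq_false_iff, ne_eq, Gd_eq_true]
    intro h
    cases F with
    | nil => simp at hbot
    | cons f F =>
      obtain ⟨i, _, hx, _⟩ := h f (List.mem_cons_self)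
      simp at hx
  · rw [Gd_eq_true]
    intro f hf
    have h := List.all_eq_true.mp htop f hf
    obtain ⟨i, _, hi⟩ := List.any_eq_true.mp h
    exact ⟨i, (hb _).mpr i.2, rfl, by simpa using hi⟩
  · intro i j
    have hwi := List.all_eq_true.mp hw i (List.mem_finRange _)
    have hwj := List.all_eq_true.mp hw j (List.mem_finRange _)
    rw [beq_iff_eq] at hwi hwj
    obtain ⟨σ, hσ, hσ'⟩ := hreach (w.getD i.val [])
    obtain ⟨ρ, hρ, hρ'⟩ := hreach (w.getD j.val [])
    rw [hwi] at hσ
    rw [hwj] at hρ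
    refine ⟨σ.symm.trans ρ, ?_, fun x => ?_⟩
    · change ρ (σ.symm i) = j
      rw [← hσ, Equiv.symm_apply_apply, hρ]
    · have e : (x ∘ (σ.symm.trans ρ)) ∘ σ = x ∘ ρ := by
        funext k; simp
      rw [← hσ' (x ∘ (σ.symm.trans ρ)), e, hρ']
  · have h := chk2_sound (n := n) C F (2 ^ n - 1) (fun y hy => (hb y).mp hy) hC
    have hcard : (alive n (2 ^ n - 1)).card = n := by
      have : alive n (2 ^ n - 1) = Finset.univ := by
        ext i; rw [mem_alive, hb]; simp
      rw [this, Finset.card_univ, Fintype.card_fin]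
    have := h.2
    rwa [hcard] at this

end Pool.Agent.Helper22.Evas
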